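import Mathlib
import Pool.Agent.Y224.OD.Stm

/-!
# Project OD: a rational valued homomorphism from a valuation ring
-/

set_option autoImplicit false

namespace Pool.Agent.Y185.OD

open Pool.Agent.Y224.OD

theorem t_hom : S_HOM := by
  intro K _ O c hc hc'
  let U : AddSubgroup (Additive Kˣ) :=
    { carrier := {x | ((Additive.toMul x : Kˣ) : K) ∈ O ∧ ((Additive.toMul x : Kˣ) : K)⁻¹ ∈ O}
      zero_mem' := by
        simp
      add_mem' := by
        rintro x y ⟨h1, h2⟩ ⟨h3, h4⟩
        refine ⟨?_, ?_⟩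
        · rw [toMul_add, Units.val_mul]
          exact O.mul_mem _ _ h1 h3
        · rw [toMul_add, Units.val_mul, mul_inv]
          exact O.mul_mem _ _ h2 h4
      neg_mem' := by
        rintro x ⟨h1, h2⟩
        refine ⟨?_, ?_⟩
        · rw [toMul_neg, Units.val_inv_eq_inv_val]
          exact h2
        · rw [toMul_neg, Units.val_inv_eq_inv_val, inv_inv]
          exact h1 }
  have hU : ∀ x : Additive Kˣ, x ∈ U ↔
    ((Additive.toMul x : Kˣ) : K) ∈ O ∧ ((Additive.toMul x : Kˣ) : K)⁻¹ ∈ O := fun x => Iff.rfl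
  let f : ℤ →+ (Additive Kˣ ⧸ U) := zmultiplesHom _ (QuotientAddGroup.mk (Additive.ofMul c))
  have key : ∀ m : ℕ, (m + 1) • Additive.ofMul c ∉ U := by
    intro m hm
    rw [hU, toMul_nsmul, toMul_ofMul, Units.val_pow_eq_pow_val] at hm
    apply hc'
    have h1 : (c : K)⁻¹ = (c : K) ^ m * ((c : K) ^ (m + 1))⁻¹ := by
      have hc0 : (c : K) ≠ 0 := c.ne_zero
      field_simp
      ring
    rw [h1]
    exact O.mul_mem _ _ (pow_mem hc m) hm.2
  have hf : Function.Injective f := by
    rw [injective_iff_map_eq_zero]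
    intro n hn
    by_contra hn0
    have h1 : f n = QuotientAddGroup.mk (n • Additive.ofMul c) := by
      simp only [f, zmultiplesHom_apply]
      rfl
    rw [h1, QuotientAddGroup.eq_zero_iff] at hn
    rcases Int.lt_trichotomy n 0 with h | h | h
    · obtain ⟨m, hm⟩ : ∃ m : ℕ, n = -((m + 1 : ℕ) : ℤ) := ⟨(-n - 1).toNat, by omega⟩
      rw [hm, neg_smul, neg_mem_iff, natCast_zsmul] at hn
      exact key m hn
    · exact hn0 h
    · obtain ⟨m, hm⟩ : ∃ m : ℕ, n = ((m + 1 : ℕ) : ℤ) := ⟨(n - 1).toNat, by omega⟩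
      rw [hm, natCast_zsmul] at hn
      exact key m hn
  obtain ⟨h, hh⟩ := Module.Baer.extension_property_addMonoidHom (M := ℤ)
    (N := Additive Kˣ ⧸ U) (Q := ℚ) (Module.Baer.of_divisible ℚ) f hf (Int.castAddHom ℚ)
  refine ⟨h.comp (QuotientAddGroup.mk' U), ?_, ?_⟩
  · have h2 := DFunLike.congr_fun hh 1
    simp only [AddMonoidHom.comp_apply, f, zmultiplesHom_apply, Int.coe_castAddHom,
      Int.cast_one] at h2
    rw [one_zsmul] at h2
    exact h2
  · intro u hu hu'
    have h3 : (QuotientAddGroup.mk' U) (Additive.ofMul u) = 0 :=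
      (QuotientAddGroup.eq_zero_iff _).2 ((hU _).2 ⟨hu, hu'⟩)
    rw [AddMonoidHom.comp_apply, h3, map_zero]

end Pool.Agent.Y185.OD
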