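import Mathlib
import Pool.Agent.Y224.OD.Stm

/-!
# Project OD: numbers congruent to one
-/

set_option autoImplicit false

namespace Pool.Agent.Y185.OD

open Pool.Agent.Y224.OD

theorem norm_le_one {ℓ : ℕ} [Fact ℓ.Prime] {K : Type} [Field K] [Algebra ℚ_[ℓ] K]
    [Algebra ℤ_[ℓ] K] [IsScalarTower ℤ_[ℓ] ℚ_[ℓ] K] {x : ℚ_[ℓ]}
    (h : IsIntegral ℤ_[ℓ] (algebraMap ℚ_[ℓ] K x)) : ‖x‖ ≤ 1 := by
  rw [isIntegral_algebraMap_iff (algebraMap ℚ_[ℓ] K).injective] at h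
  obtain ⟨y, hy⟩ := IsIntegrallyClosed.isIntegral_iff.1 h
  rw [← hy]
  exact y.2

theorem t_root : S_ROOT := by
  intro ℓ _ K _ _ _ _ m m' hm hm' n hn h
  have hℓ : ℓ.Prime := Fact.out
  have : CharZero K := charZero_of_injective_algebraMap (algebraMap ℚ_[ℓ] K).injective
  have hℓ0 : (ℓ : K) ≠ 0 := Nat.cast_ne_zero.2 hℓ.ne_zero
  have hℓi : IsIntegral ℤ_[ℓ] (ℓ : K) := isIntegral_natCast ℓ
  have hnℓ : ‖(ℓ : ℚ_[ℓ])‖ = (ℓ : ℝ)⁻¹ := Padic.norm_p
  have hℓ1 : (1 : ℝ) < ℓ := by exact_mod_cast hℓ.one_lt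
  -- a rational number times an inverse square is integral only if its norm is small
  have key : ∀ (c : ℚ_[ℓ]) (s : K), IsIntegral ℤ_[ℓ] s → algebraMap ℚ_[ℓ] K c = (ℓ : K) ^ 2 * s →
      ‖c‖ ≤ ((ℓ : ℝ)⁻¹) ^ 2 := by
    intro c s hs hc
    have hq0 : (ℓ : ℚ_[ℓ]) ≠ 0 := Nat.cast_ne_zero.2 hℓ.ne_zero
    have h1 : s = algebraMap ℚ_[ℓ] K (c / (ℓ : ℚ_[ℓ]) ^ 2) := by
      rw [map_div₀, hc, map_pow, map_natCast]
      field_simp
    rw [h1] at hs
    have h2 := norm_le_one hs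
    rw [norm_div, norm_pow, hnℓ, div_le_one (by positivity)] at h2
    exact h2
  set b : K := 1 + (ℓ : K) ^ 2 * m' with hb
  have hb0 : b ≠ 0 := by
    intro h0
    have h1 := key 1 (-m') hm'.neg (by rw [map_one]; linear_combination h0)
    rw [norm_one] at h1
    have h2 : (ℓ : ℝ)⁻¹ < 1 := inv_lt_one_of_one_lt₀ hℓ1
    have h3 : 0 < (ℓ : ℝ)⁻¹ := by positivity
    nlinarith
  set z : K := (1 + (ℓ : K) ^ 2 * m) / b with hz
  have hzn : z ^ n = 1 := by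
    rw [hz, div_pow, h, div_self (pow_ne_zero n hb0)]
  have hzi : IsIntegral ℤ_[ℓ] z := IsIntegral.of_pow hn (by rw [hzn]; exact isIntegral_one)
  have hzt : z = 1 + (ℓ : K) ^ 2 * (m - z * m') := by
    have h1 : z * b = 1 + (ℓ : K) ^ 2 * m := by rw [hz, div_mul_cancel₀ _ hb0]
    rw [hb] at h1
    linear_combination h1
  have hti : IsIntegral ℤ_[ℓ] (m - z * m') := hm.sub (hzi.mul hm')
  -- powers
  have hpow : ∀ j : ℕ, ∃ t : K, IsIntegral ℤ_[ℓ] t ∧ z ^ j = 1 + (ℓ : K) ^ 2 * t := by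
    intro j
    induction j with
    | zero => exact ⟨0, isIntegral_zero, by simp⟩
    | succ j ih =>
      obtain ⟨t, ht, hj⟩ := ih
      refine ⟨t + (m - z * m') + (ℓ : K) ^ 2 * (t * (m - z * m')),
        (ht.add hti).add ((hℓi.pow 2).mul (ht.mul hti)), ?_⟩
      rw [pow_succ, hj]
      nth_rewrite 1 [hzt]
      ring
  have hz1 : z = 1 := by
    by_contra hne
    have hord : orderOf z ≠ 1 := fun h0 => hne (orderOf_eq_one_iff.1 h0)
    have hpos : 0 < orderOf z := orderOf_pos_iff.2 (isOfFinOrder_iff_pow_eq_one.2 ⟨n, hn, hzn⟩)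
    set r := (orderOf z).minFac with hr
    have hrp : r.Prime := Nat.minFac_prime hord
    obtain ⟨q, hq⟩ : r ∣ orderOf z := Nat.minFac_dvd _
    have hq0 : 0 < q := by
      rcases Nat.eq_zero_or_pos q with h0 | h0
      · rw [h0, mul_zero] at hq
        omega
      · exact h0
    have he1 : z ^ q ≠ 1 := by
      intro h0
      have h1 := Nat.le_of_dvd hq0 (orderOf_dvd_of_pow_eq_one h0)
      rw [hq] at h1
      have := hrp.two_le
      nlinarith
    have her : (z ^ q) ^ r = 1 := by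
      rw [← pow_mul, mul_comm q r, ← hq, pow_orderOf_eq_one]
    have hsum : ∑ i ∈ Finset.range r, (z ^ q) ^ i = 0 := by
      have h1 := geom_sum_mul (z ^ q) r
      rw [her, sub_self] at h1
      exact (mul_eq_zero.1 h1).resolve_right (sub_ne_zero.2 he1)
    choose t ht htz using fun i : ℕ => hpow (q * i)
    have h2 : ((r : ℕ) : K) + (ℓ : K) ^ 2 * ∑ i ∈ Finset.range r, t i = 0 := by
      rw [← hsum, Finset.mul_sum]
      have h3 : ∀ i ∈ Finset.range r, (z ^ q) ^ i = 1 + (ℓ : K) ^ 2 * t i := fun i _ => by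
        rw [← pow_mul, htz]
      rw [Finset.sum_congr rfl h3, Finset.sum_add_distrib, Finset.sum_const, Finset.card_range,
        nsmul_eq_mul, mul_one]
    have h4 := key (r : ℚ_[ℓ]) (-∑ i ∈ Finset.range r, t i)
      (IsIntegral.sum _ fun i _ => ht i).neg (by rw [map_natCast]; linear_combination h2)
    have h5 : ((ℓ : ℝ)⁻¹) ^ 2 < (ℓ : ℝ)⁻¹ := by
      have h6 : (ℓ : ℝ)⁻¹ < 1 := inv_lt_one_of_one_lt₀ hℓ1
      have h7 : 0 < (ℓ : ℝ)⁻¹ := by positivity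
      nlinarith
    by_cases hrl : r = ℓ
    · rw [hrl, hnℓ] at h4
      linarith
    · have h8 : ‖(r : ℚ_[ℓ])‖ = 1 := by
        rw [Padic.norm_natCast_eq_one_iff]
        exact (Nat.coprime_primes hℓ hrp).2 (Ne.symm hrl)
      rw [h8] at h4
      have h6 : (ℓ : ℝ)⁻¹ < 1 := inv_lt_one_of_one_lt₀ hℓ1
      linarith
  have h9 : (ℓ : K) ^ 2 * m = (ℓ : K) ^ 2 * m' := by
    have h10 : 1 + (ℓ : K) ^ 2 * m = b := by
      have h11 : z * b = 1 + (ℓ : K) ^ 2 * m := by rw [hz, div_mul_cancel₀ _ hb0]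
      rw [← h11, hz1, one_mul]
    rw [hb] at h10
    linear_combination h10
  exact mul_left_cancel₀ (pow_ne_zero 2 hℓ0) h9

end Pool.Agent.Y185.OD
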